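import Mathlib
import Pool.Agent.X86.PH.SL25

/-!
# MP_57c94c_al, Q1: a semisimple Hopf algebra `H` with `H_par` not semisimple

`H` is the Hopf algebra `k^K` of functions on `K = PSL(2, 5) ≅ A₅` over `k = 𝔽₂` (the dual of the
group algebra `kK`). As an algebra it is a product of copies of `k`, hence semisimple. But
`H_par` is not semisimple.

* `Pool.Agent.X86.PH.Hpar k H`: the partial Hopf algebra `T(H) / I`.
* `Pool.Agent.X86.PH.Fun k K`: the Hopf algebra of functions on the finite group `K`.
-/

namespace Pool.Agent.Results.MP_57c94c_al.NotSemisimple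

open Pool.Agent.X86.PH

/-- The group `PSL(2, 5)`. -/
abbrev PSL : Type := Matrix.ProjectiveSpecialLinearGroup (Fin 2) (ZMod 5)

noncomputable instance : Fintype PSL := Fintype.ofFinite _

noncomputable instance : DecidableEq PSL := Classical.decEq _

theorem center_pm (g : SL) (hg : g ∈ Subgroup.center SL) : g = 1 ∨ g = -1 := by
  rw [Matrix.SpecialLinearGroup.mem_center_iff] at hg
  obtain ⟨r, hr, hg⟩ := hg
  rw [Fintype.card_fin] at hr
  have h1 : ∀ r : ZMod 5, r ^ 2 = 1 → r = 1 ∨ r = -1 := by decide
  rcases h1 r hr with rfl | rfl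
  · left
    apply Subtype.ext
    rw [← hg, map_one]
    rfl
  · right
    apply Subtype.ext
    rw [← hg, map_neg, map_one, Matrix.SpecialLinearGroup.coe_neg]
    rfl

theorem not_ss : ¬ IsSemisimpleRing (Hpar (ZMod 2) (Fun (ZMod 2) PSL)) := by
  refine hpar_not_semisimple (QuotientGroup.mk' (Subgroup.center SL)) (e := ee) ee_idem ee_conj
    (-1) (by rw [neg_mul_neg, one_mul]) ?_ ?_ ee_supp ee_gen ⟨1, ?_⟩
  · rw [QuotientGroup.mk'_apply, QuotientGroup.eq_one_iff, Subgroup.mem_center_iff]
    intro g
    rw [mul_neg_one, neg_one_mul]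
  · intro a b hab
    rw [QuotientGroup.mk'_apply, QuotientGroup.mk'_apply, QuotientGroup.eq] at hab
    rcases center_pm _ hab with h | h
    · left
      rw [inv_mul_eq_one] at h
      exact h.symm
    · right
      rw [inv_mul_eq_iff_eq_mul] at h
      rw [h, mul_neg_one, neg_one_mul]
  · rw [ee_ne]
    left
    decide

/-- **Q1 of MP_57c94c_al fails.** There are a field `k` and a semisimple Hopf algebra `H` over `k`
such that the partial Hopf algebra `H_par` is not semisimple. -/
theorem _root_.Pool.Agent.Results.MP_57c94c_al.NotSemisimple.result :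
    ∃ (k H : Type) (_ : Field k) (_ : Ring H) (_ : HopfAlgebra k H),
      IsSemisimpleRing H ∧ ¬ IsSemisimpleRing (Hpar k H) :=
  ⟨ZMod 2, Fun (ZMod 2) PSL, inferInstance, inferInstance, inferInstance, inferInstance, not_ss⟩

end Pool.Agent.Results.MP_57c94c_al.NotSemisimple
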